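import Pool.Agent.Helper455.Engel.Final
import Pool.Agent.Helper455.Engel.Sanity

/-!
Every minimal non-Engel variety of associative rings is a Cross variety.

The definitions used in the statement are in `Pool/Agent/Helper455/Engel/Defs.lean`.
-/

namespace Pool.Agent.Results.MP_a5aec7_al.MinimalNonEngelCross

open Pool.Agent.Helper455.Engel

/-- Sanity check: minimal non-Engel varieties exist. -/
theorem exists_minimalNonEngel : ∃ Γ : Set Term, MinimalNonEngel Γ :=
  ⟨_, minimalNonEngel_A2⟩

/-- Being a Cross variety depends only on the class of rings, not on the defining identities. -/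
theorem isCross_congr {Γ Δ : Set Term}
    (h : ∀ (A : Type) [NonUnitalRing A], InVar Γ A ↔ InVar Δ A) (hΓ : IsCross Γ) : IsCross Δ := by
  obtain ⟨⟨Λ, hfin, hΛ⟩, hlf, n, C, iC, hC⟩ := hΓ
  refine ⟨⟨Λ, hfin, fun A _ => (hΛ A).trans (h A)⟩, fun A _ hA => hlf A ((h A).2 hA),
    n, C, iC, fun R _ hR => hC R ((h R).2 hR)⟩

/-- Every minimal non-Engel variety consists of the rings satisfying all identities of the ring
generated by two matrices `diag(α, β)`, `E₁₂` over a finite field, where `α ≠ β`. -/
theorem generated (Γ : Set Term) (hΓ : MinimalNonEngel Γ) :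
    ∃ (k : Type) (_ : Field k) (_ : Finite k) (α β : k), α ≠ β ∧
      ∀ (A : Type) [NonUnitalRing A], InVar Γ A ↔ InVar (Ident (R0 k α β)) A := by
  obtain ⟨k, ik, ifk, α, β, hαβ, hR⟩ := exists_R0 Γ hΓ.1
  refine ⟨k, ik, ifk, α, β, hαβ, fun A _ => ⟨?_, fun hA t ht => hA t (hR t ht)⟩⟩
  intro hA
  by_contra hcon
  exact R0_not_engel hαβ (Ident (R0 k α β)) (inVar_Ident _)
    (hΓ.2 (Ident (R0 k α β)) (fun B _ hB t ht => hB t (hR t ht)) ⟨A, inferInstance, hA, hcon⟩)

/-- Every minimal non-Engel variety of associative rings is a Cross variety. -/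
theorem result (Γ : Set Term) (hΓ : MinimalNonEngel Γ) : IsCross Γ := by
  obtain ⟨k, ik, ifk, α, β, hαβ, hR⟩ := generated Γ hΓ
  obtain ⟨p, hp⟩ := CharP.exists k
  have : Fintype k := Fintype.ofFinite k
  obtain ⟨e, hpp, hcard⟩ := FiniteField.card k p
  have h1 : 1 < Nat.card k := Finite.one_lt_card
  have hm : (Nat.card k - 1) + 1 = Nat.card k := by omega
  have hgood : Good p (Nat.card k - 1) (R0 k α β) := R0_good p _ hm
  have hcross := cross_of_good (e := e) hpp (by omega)
    (by rw [hm, Nat.card_eq_fintype_card]; exact hcard) hgood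
  exact isCross_congr (fun A _ => (hR A).symm) hcross

end Pool.Agent.Results.MP_a5aec7_al.MinimalNonEngelCross
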